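import Pool.Agent.H354.BG.Stm

set_option autoImplicit false

/-! Project BG (helper354), task BG-SHP-A: the values of codes of shapes 1, 2 (helper909). -/

namespace Pool.Agent.H909.BG.SHPA

open Pool.Agent.H482R3.EA (W inv ev PP xx evF cond1 cond2 Syl gOf Sys St Near InD Adm Act)
open Pool.Agent.H482R3.EB (tot wp alt rels AR gR TR Tame Symm alt_length)
open Pool.Agent.H354.BG

lemma lt_pow (D : Dat) (v : Fin D.n) (s : Bool) (n : ℕ) :
    ∃ i : ℤ, lt D (v, s) ^ n = gR D.m v ^ i := by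
  cases s
  · refine ⟨-(n : ℤ), ?_⟩
    rw [lt_false, inv_pow, zpow_neg, zpow_natCast]
  · refine ⟨(n : ℤ), ?_⟩
    rw [lt_true, zpow_natCast]

/-- the value of a point syllable -/
lemma val_pt (D : Dat) (U : Finset (Fin D.r)) (b : Fin D.r) (g : W (Fin D.n)) (v : Fin D.n)
    (s : Bool) (n : ℕ) :
    gEl D (valS D U b (.inl (g, v, s, n))) =
      rho D U (gEl D g) * lt D (v, s) ^ n * (rho D U (gEl D g))⁻¹ := by
  show gEl D (flt D U g ++ List.replicate n (v, s) ++ inv (flt D U g)) = _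
  rw [gEl_append, gEl_append, gEl_inv, gEl_repl, rho_gEl]

/-- the homomorphism of a cross line with the base point `1` -/
noncomputable def ph (D : Dat) (v w : Fin D.n) : FreeGroup (Fin (kk D v w)) →* D.A :=
  FreeGroup.lift (fun r : Fin (kk D v w) => (1 : D.A) * gR D.m w ^ (r : ℕ) * gR D.m v *
    gR D.m w ^ (-((r : ℕ) : ℤ)) * (1 : D.A)⁻¹)

lemma ph_xx (D : Dat) (U : Finset (Fin D.r)) (b : Fin D.r) (v w : Fin D.n)
    (h : okL D U b v w) (i : ℤ) :
    ph D v w (xx (kk D v w) i) = gR D.m w ^ i * gR D.m v * gR D.m w ^ (-i) := by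
  have hk := kk_spec D h
  have h1 := Pool.Agent.H482R3.EB.Asm.xh D.A inferInstance (gR D.m v) (gR D.m w) 1 (kk D v w)
    (by omega) (cross_rel D h) i
  refine Eq.trans h1 ?_
  rw [one_mul, inv_one, mul_one]

lemma gEl_letF (D : Dat) (U : Finset (Fin D.r)) (b : Fin D.r) (v w : Fin D.n)
    (h : okL D U b v w) (a : ℕ × Bool) :
    gEl D (letF D (kk D v w) v w a) =
      ph D v w (if a.2 then xx (kk D v w) ((a.1 % kk D v w : ℕ) : ℤ)
        else (xx (kk D v w) ((a.1 % kk D v w : ℕ) : ℤ))⁻¹) := by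
  obtain ⟨r, e⟩ := a
  have h1 : gEl D (letF D (kk D v w) v w (r, e)) =
      gR D.m w ^ (r % kk D v w) * lt D (v, e) * (gR D.m w)⁻¹ ^ (r % kk D v w) := by
    show gEl D (List.replicate (r % kk D v w) (w, true) ++ [(v, e)] ++
      List.replicate (r % kk D v w) (w, false)) = _
    rw [gEl_append, gEl_append, (gEl_rep D w _).1, (gEl_rep D w _).2, gEl_single]
  have h2 : (gR D.m w)⁻¹ ^ (r % kk D v w) = gR D.m w ^ (-((r % kk D v w : ℕ) : ℤ)) := by
    rw [inv_pow, zpow_neg, zpow_natCast]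
  have h3 : gR D.m w ^ (r % kk D v w) = gR D.m w ^ ((r % kk D v w : ℕ) : ℤ) := by
    rw [zpow_natCast]
  rw [h1, h2, h3]
  cases e
  · show _ = ph D v w ((xx (kk D v w) ((r % kk D v w : ℕ) : ℤ))⁻¹)
    rw [map_inv, ph_xx D U b v w h, lt_false]
    group
  · show _ = ph D v w (xx (kk D v w) ((r % kk D v w : ℕ) : ℤ))
    rw [ph_xx D U b v w h, lt_true]

lemma gEl_flat (D : Dat) (U : Finset (Fin D.r)) (b : Fin D.r) (v w : Fin D.n)
    (h : okL D U b v w) (y : W ℕ) :
    gEl D (y.flatMap (letF D (kk D v w) v w)) = ph D v w (evF (kk D v w) y) := by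
  induction y with
  | nil =>
    show (1 : D.A) = ph D v w 1
    rw [map_one]
  | cons a y ih =>
    rw [List.flatMap_cons, gEl_append, ih, gEl_letF D U b v w h, ← map_mul]
    have h1 : evF (kk D v w) (a :: y) =
        (if a.2 then xx (kk D v w) ((a.1 % kk D v w : ℕ) : ℤ)
          else (xx (kk D v w) ((a.1 % kk D v w : ℕ) : ℤ))⁻¹) * evF (kk D v w) y := by
      unfold evF ev
      rw [List.map_cons, List.prod_cons]
    rw [h1]

/-- the value of a cross line syllable -/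
lemma val_cr (D : Dat) (U : Finset (Fin D.r)) (b : Fin D.r) (g : W (Fin D.n)) (v w : Fin D.n)
    (h : okL D U b v w) (y : W ℕ) :
    gEl D (valS D U b (.inr (.inr (g, v, w, y)))) =
      rho D U (gEl D g) * ph D v w (evF (kk D v w) y) * (rho D U (gEl D g))⁻¹ := by
  show gEl D (flt D U g ++ y.flatMap (letF D (kk D v w) v w) ++ inv (flt D U g)) = _
  rw [gEl_append, gEl_append, gEl_inv, gEl_flat D U b v w h, rho_gEl]

/-- shape 1 -/
lemma sh1 (D : Dat) (U : Finset (Fin D.r)) (b : Fin D.r) (v : Fin D.n)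
    (code : List (Sy D)) (h1 : Sh1 D v code) :
    ∃ (i : ℤ) (h : D.A), h ∈ par D U ∧
      gEl D (code.flatMap (valS D U b)) = h * gR D.m v ^ i * h⁻¹ := by
  rcases h1 with rfl | ⟨g, s, n, rfl⟩
  · refine ⟨0, 1, Subgroup.one_mem _, ?_⟩
    rw [zpow_zero, mul_one, inv_one, mul_one]
    rfl
  · obtain ⟨i, hi⟩ := lt_pow D v s n
    refine ⟨i, rho D U (gEl D g), rho_mem D U _, ?_⟩
    rw [List.flatMap_cons, List.flatMap_nil, List.append_nil, val_pt, hi]

/-- BG-SHP-A -/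
theorem t_SHPA (D : Dat) (U : Finset (Fin D.r)) (b : Fin D.r) (hb : b ∉ U) (v : Fin D.n)
    (hv : D.β v = b) (code : List (Sy D)) (hc : VC D U b none code) :
    (Sh1 D v code → ∃ (i : ℤ) (h : D.A), h ∈ par D U ∧
      gEl D (code.flatMap (valS D U b)) = h * gR D.m v ^ i * h⁻¹) ∧
    (Sh2 D U b v code → ∃ (j i : ℤ) (h : D.A), h ∈ par D U ∧
      gEl D (code.flatMap (valS D U b)) = gR D.m v ^ j * h * gR D.m v ^ i * h⁻¹) := by
  have hvb : gR D.m v ∈ par D {b} := gR_mem_par D (Finset.mem_singleton.mpr hv)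
  have hZ : ∀ z : D.A, z ∈ par D (pZ D U b) → ∀ i : ℤ, gR D.m v ^ i * z = z * gR D.m v ^ i := by
    intro z hz i
    exact (comm_b D (Subgroup.zpow_mem _ hvb i) hz).eq
  refine ⟨sh1 D U b v code, ?_⟩
  rintro (h1 | ⟨g, s, n, g', s', n', rfl, hs⟩ | ⟨g, w, y, rfl, hon, hcd⟩)
  · obtain ⟨i, h, hh, he⟩ := sh1 D U b v code h1
    refine ⟨0, i, h, hh, ?_⟩
    rw [he, zpow_zero, one_mul]
  · -- two point syllables
    obtain ⟨j, hj⟩ := lt_pow D v s n
    obtain ⟨i, hi⟩ := lt_pow D v s' n'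
    refine ⟨j, i, rho D U (gEl D g'), rho_mem D U _, ?_⟩
    have hg : rho D U (gEl D g) ∈ par D (pZ D U b) := by
      have h2 : (gEl D g)⁻¹ * gEl D [] ∈ H0 D U b := hs
      rw [gEl_nil, mul_one] at h2
      have h3 := (mem_H0 D U b).mp h2
      rw [map_inv] at h3
      have h4 := Subgroup.inv_mem _ h3
      rw [inv_inv] at h4
      exact h4
    have h5 : rho D U (gEl D g) * gR D.m v ^ j * (rho D U (gEl D g))⁻¹ = gR D.m v ^ j := by
      rw [← hZ _ hg j, mul_assoc, mul_inv_cancel, mul_one]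
    rw [List.flatMap_cons, List.flatMap_cons, List.flatMap_nil, List.append_nil, gEl_append,
      val_pt, val_pt, hj, hi, h5, mul_assoc, mul_assoc, mul_assoc]
  · -- one cross line syllable
    have hok : okL D U b v w := hc.1.1
    obtain ⟨i, h, hh, he⟩ := hon
    rw [gEl_nil, mul_one, map_inv] at he
    have hG : rho D U (gEl D g) = h⁻¹ * gR D.m w ^ (-i) := by
      rw [← inv_inv (rho D U (gEl D g)), he, mul_inv_rev, zpow_neg]
    have hwZ : D.β w ∉ pZ D U b := w_notMem_Z D U b hok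
    have heg : eg D (D.β w) (gEl D g) = - i := by
      have h6 : eg D (D.β w) (rho D U (gEl D g)) = eg D (D.β w) (gEl D g) := by
        rw [eg_rho, if_pos hok.2.1]
      rw [← h6, hG, eg_mul, eg_inv, eg_par D hwZ hh, eg_gR_zpow]
      ring
    rw [heg, neg_neg] at hcd
    have hcd' : ∃ s a c : ℤ, evF (kk D v w) y = xx (kk D v w) i ^ a * xx (kk D v w) s ^ c := by
      by_contra hno
      exact hcd (fun s a c hsac => hno ⟨s, a, c, hsac⟩)
    obtain ⟨s, a, c, hy⟩ := hcd'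
    refine ⟨a, c, h⁻¹ * gR D.m w ^ (s - i), ?_, ?_⟩
    · refine Subgroup.mul_mem _ (Subgroup.inv_mem _ (par_mono D (pZ_sub D U b) hh)) ?_
      exact Subgroup.zpow_mem _ (gR_mem_par D hok.2.1) _
    · rw [List.flatMap_cons, List.flatMap_nil, List.append_nil, val_cr D U b g v w hok, hy, map_mul,
        map_zpow, map_zpow, ph_xx D U b v w hok, ph_xx D U b v w hok, hG]
      have e1 : ∀ (t e : ℤ), (gR D.m w ^ t * gR D.m v * gR D.m w ^ (-t)) ^ e =
          gR D.m w ^ t * gR D.m v ^ e * gR D.m w ^ (-t) := by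
        intro t e
        rw [zpow_neg]
        exact conj_zpow
      have e2 : gR D.m v ^ a * h⁻¹ = h⁻¹ * gR D.m v ^ a := hZ _ (Subgroup.inv_mem _ hh) a
      rw [e1, e1]
      calc h⁻¹ * gR D.m w ^ (-i) * (gR D.m w ^ i * gR D.m v ^ a * gR D.m w ^ (-i) *
            (gR D.m w ^ s * gR D.m v ^ c * gR D.m w ^ (-s))) * (h⁻¹ * gR D.m w ^ (-i))⁻¹
          = (h⁻¹ * gR D.m v ^ a) * gR D.m w ^ (s - i) * gR D.m v ^ c *
            (gR D.m w ^ (s - i))⁻¹ * h := by
            rw [sub_eq_add_neg, zpow_add, mul_inv_rev, mul_inv_rev, inv_inv]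
            simp only [zpow_neg, inv_inv, mul_assoc, inv_mul_cancel_left]
            rw [← mul_assoc (gR D.m w ^ s) ((gR D.m w ^ i)⁻¹),
              ← mul_assoc ((gR D.m w ^ i)⁻¹) (gR D.m w ^ s)]
            have e3 : (gR D.m w ^ i)⁻¹ * gR D.m w ^ s = gR D.m w ^ s * (gR D.m w ^ i)⁻¹ := by
              rw [← zpow_neg, ← zpow_add, ← zpow_add, add_comm]
            have e4 : (gR D.m w ^ s)⁻¹ * (gR D.m w ^ i * h) =
                gR D.m w ^ i * ((gR D.m w ^ s)⁻¹ * h) := by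
              rw [← mul_assoc, ← mul_assoc, ← zpow_neg, ← zpow_add, ← zpow_add, add_comm]
            rw [e3, e4]
        _ = gR D.m v ^ a * (h⁻¹ * gR D.m w ^ (s - i)) * gR D.m v ^ c *
            (h⁻¹ * gR D.m w ^ (s - i))⁻¹ := by
            rw [← e2, mul_inv_rev, inv_inv]
            simp only [mul_assoc]

end Pool.Agent.H909.BG.SHPA
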